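import Pool.Agent.Helper63.P705.NUM.Goals

/-! MP_705522_gt: numeric kernel, goal (N11). -/

namespace Pool.Agent.Helper49.P705

open Pool.Agent.Helper63.P705
open Pool.Agent.Helper53.PT (mo m3 f0 f1 f2)
open Set

theorem taylor_bd {g : ℝ → ℝ} (hg : ∀ n : ℕ, ContDiff ℝ n g) (n : ℕ) {x0 w C : ℝ} (hw : 0 ≤ w)
    (hC : ∀ x, x0 ≤ x → |iteratedDeriv (n + 1) g x| ≤ C) :
    |g (x0 + w) - ∑ i ∈ Finset.range (n + 1), iteratedDeriv i g x0 / (i.factorial : ℝ) * w ^ i| ≤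
      C * w ^ (n + 1) / ((n + 1).factorial : ℝ) := by
  have hC0 : 0 ≤ C := (abs_nonneg _).trans (hC x0 le_rfl)
  rcases hw.eq_or_lt with rfl | hw
  · rw [add_zero, Finset.sum_range_succ']
    simp only [pow_succ, mul_zero, Finset.sum_const_zero, zero_add, Nat.factorial_zero, Nat.cast_one,
      div_one, pow_zero, mul_one, iteratedDeriv_zero, sub_self, abs_zero]
    simp
  · have hlt : x0 < x0 + w := by linarith
    have hu : UniqueDiffOn ℝ (Icc x0 (x0 + w)) := uniqueDiffOn_Icc hlt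
    have hI : uIcc x0 (x0 + w) = Icc x0 (x0 + w) := uIcc_of_le hlt.le
    have hO : uIoo x0 (x0 + w) = Ioo x0 (x0 + w) := uIoo_of_le hlt.le
    have hd : DifferentiableOn ℝ (iteratedDerivWithin n g (Icc x0 (x0 + w))) (Ioo x0 (x0 + w)) := by
      have h1 : ContDiffOn ℝ ((n + 1 : ℕ) : WithTop ℕ∞) g (Icc x0 (x0 + w)) := (hg (n + 1)).contDiffOn
      refine (h1.differentiableOn_iteratedDerivWithin ?_ hu).mono Ioo_subset_Icc_self
      exact_mod_cast Nat.lt_succ_self n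
    obtain ⟨x', hx', h⟩ := taylor_mean_remainder_lagrange (f := g) (n := n) hlt.ne
      (by rw [hI]; exact (hg n).contDiffOn) (by rw [hI, hO]; exact hd)
    rw [hI, taylor_within_apply] at h
    rw [hO] at hx'
    have e1 : ∀ (k : ℕ) (y : ℝ), y ∈ Icc x0 (x0 + w) →
        iteratedDerivWithin k g (Icc x0 (x0 + w)) y = iteratedDeriv k g y := fun k y hy =>
      iteratedDerivWithin_eq_iteratedDeriv hu (hg k).contDiffAt hy
    rw [e1 (n + 1) x' (Ioo_subset_Icc_self hx')] at h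
    have e2 : ∑ k ∈ Finset.range (n + 1), (((k.factorial : ℝ))⁻¹ * (x0 + w - x0) ^ k) •
        iteratedDerivWithin k g (Icc x0 (x0 + w)) x0 =
        ∑ i ∈ Finset.range (n + 1), iteratedDeriv i g x0 / (i.factorial : ℝ) * w ^ i := by
      refine Finset.sum_congr rfl fun k _ => ?_
      rw [e1 k x0 (left_mem_Icc.2 hlt.le), smul_eq_mul, add_sub_cancel_left]
      ring
    rw [e2, add_sub_cancel_left] at h
    rw [h, abs_div, abs_mul, abs_of_nonneg (pow_nonneg hw.le _),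
      abs_of_nonneg (Nat.cast_nonneg (α := ℝ) (n + 1).factorial)]
    gcongr
    exact hC x' hx'.1.le

/-- the terms of the series of the `m`-th derivative -/
noncomputable def tm (θ xb : ℝ) (m j : ℕ) : ℝ :=
  (-1) ^ (j + m) * (((j + m).factorial : ℝ) / (j.factorial : ℝ)) * al θ (j + m) * xb ^ j

theorem tm_abs {θ xb : ℝ} (hx : 0 ≤ xb)
    (hal : ∀ j, 0 < al θ j ∧ al θ j ≤ 1 / (2 ^ j * (j.factorial : ℝ))) (m j : ℕ) :
    |tm θ xb m j| ≤ (1 / 2) ^ (j + m) * (xb ^ j / (j.factorial : ℝ)) := by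
  unfold tm
  rw [abs_mul, abs_mul, abs_mul, abs_pow, abs_neg, abs_one, one_pow, one_mul,
    abs_of_nonneg (pow_nonneg hx j), abs_of_pos (hal (j + m)).1, abs_of_nonneg (by positivity)]
  have h1 : ((j + m).factorial : ℝ) / (j.factorial : ℝ) * al θ (j + m) ≤
      ((j + m).factorial : ℝ) / (j.factorial : ℝ) * (1 / (2 ^ (j + m) * ((j + m).factorial : ℝ))) :=
    mul_le_mul_of_nonneg_left (hal (j + m)).2 (by positivity)
  refine (mul_le_mul_of_nonneg_right h1 (pow_nonneg hx j)).trans (le_of_eq ?_)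
  have h2 : ((j + m).factorial : ℝ) ≠ 0 := by positivity
  have h3 : (j.factorial : ℝ) ≠ 0 := by positivity
  rw [one_div_pow]
  field_simp

theorem tm_summable {θ xb : ℝ} (hx : 0 ≤ xb)
    (hal : ∀ j, 0 < al θ j ∧ al θ j ≤ 1 / (2 ^ j * (j.factorial : ℝ))) (m : ℕ) :
    Summable (tm θ xb m) := by
  refine Summable.of_norm_bounded (g := fun j : ℕ => xb ^ j / (j.factorial : ℝ))
    (Real.summable_pow_div_factorial xb) fun j => ?_
  rw [Real.norm_eq_abs]
  refine (tm_abs hx hal m j).trans ?_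
  have : (1 / 2 : ℝ) ^ (j + m) ≤ 1 := pow_le_one₀ (by norm_num) (by norm_num)
  have h0 : 0 ≤ xb ^ j / (j.factorial : ℝ) := by positivity
  nlinarith

theorem cT_eq (θ xb : ℝ) {J m : ℕ} (hm : m ≤ J) :
    (m.factorial : ℝ) * cT θ xb J m = ∑ j ∈ Finset.range (J + 1 - m), tm θ xb m j := by
  unfold cT
  have e : J + 1 = m + (J + 1 - m) := by omega
  rw [e, Finset.sum_range_add, Finset.sum_eq_zero, zero_add, Finset.mul_sum]
  · rw [show m + (J + 1 - m) - m = J + 1 - m by omega]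
    refine Finset.sum_congr rfl fun j _ => ?_
    unfold tm
    have h1 := Nat.add_choose_mul_factorial_mul_factorial m j
    have h2 : (((m + j).choose m : ℕ) : ℝ) * (m.factorial : ℝ) * (j.factorial : ℝ) =
        ((j + m).factorial : ℝ) := by
      rw [add_comm j m, Nat.choose_symm_add]
      exact_mod_cast h1
    have h3 : (j.factorial : ℝ) ≠ 0 := by positivity
    rw [← h2, add_tsub_cancel_left, add_comm j m]
    field_simp
  · intro j hj
    rw [Nat.choose_eq_zero_of_lt (Finset.mem_range.1 hj)]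
    simp

/-- bounds of the terms `l + J + 1` -/
noncomputable def bb (xb : ℝ) (J m l : ℕ) : ℝ :=
  (1 / 2) ^ (l + (J + 1)) * (xb ^ (l + (J + 1 - m)) / ((l + (J + 1 - m)).factorial : ℝ))

theorem bb_summable {xb : ℝ} (hx : 0 ≤ xb) (J m : ℕ) : Summable (bb xb J m) := by
  have h1 := (summable_nat_add_iff (f := fun j : ℕ => xb ^ j / (j.factorial : ℝ)) (J + 1 - m)).2
    (Real.summable_pow_div_factorial xb)
  refine Summable.of_norm_bounded h1 fun l => ?_
  have h2 : (1 / 2 : ℝ) ^ (l + (J + 1)) ≤ 1 := pow_le_one₀ (by norm_num) (by norm_num)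
  have h3 : (0 : ℝ) ≤ (1 / 2) ^ (l + (J + 1)) := by positivity
  have h0 : 0 ≤ xb ^ (l + (J + 1 - m)) / ((l + (J + 1 - m)).factorial : ℝ) := by positivity
  rw [Real.norm_eq_abs]
  unfold bb
  rw [abs_of_nonneg (mul_nonneg h3 h0)]
  nlinarith

theorem coef_err {θ : ℝ} {xb : ℝ} (hx : 0 ≤ xb)
    (hal : ∀ j, 0 < al θ j ∧ al θ j ≤ 1 / (2 ^ j * (j.factorial : ℝ)))
    (hD : ∀ m : ℕ, iteratedDeriv m (f0 θ) xb = ∑' j, tm θ xb m j) {J m : ℕ} (hm : m ≤ J) :
    |iteratedDeriv m (f0 θ) xb - (m.factorial : ℝ) * cT θ xb J m| ≤ ∑' l, bb xb J m l := by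
  rw [hD m, cT_eq θ xb hm, ← (tm_summable hx hal m).sum_add_tsum_nat_add (J + 1 - m),
    add_sub_cancel_left]
  rw [← Real.norm_eq_abs]
  refine tsum_of_norm_bounded (bb_summable hx J m).hasSum fun l => ?_
  rw [Real.norm_eq_abs]
  refine (tm_abs hx hal m _).trans (le_of_eq ?_)
  unfold bb
  congr 2
  omega

theorem pow_fac {y : ℝ} (hy : 0 ≤ y) {J : ℕ} (hJ : 24 ≤ J) (hyJ : 2 * y ≤ J + 1)
    (h50 : y ^ (J - 1) / ((J - 1).factorial : ℝ) ≤ 2⁻¹ ^ 50) (s : ℕ) :
    y ^ (s + (J - 1)) / ((s + (J - 1)).factorial : ℝ) ≤ 2⁻¹ ^ 50 * (25 / 48) ^ s := by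
  induction s with
  | zero => simpa using h50
  | succ s ih =>
    have hJ' : (24 : ℝ) ≤ J := by exact_mod_cast hJ
    have e : s + 1 + (J - 1) = (s + (J - 1)) + 1 := by omega
    rw [e, pow_succ, Nat.factorial_succ, Nat.cast_mul]
    have h1 : y / ((s + (J - 1) + 1 : ℕ) : ℝ) ≤ 25 / 48 := by
      have h2 : (J : ℝ) ≤ ((s + (J - 1) + 1 : ℕ) : ℝ) := by
        have : J ≤ s + (J - 1) + 1 := by omega
        exact_mod_cast this
      rw [div_le_iff₀ (by linarith)]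
      nlinarith
    have h3 : y ^ (s + (J - 1)) * y / (((s + (J - 1) + 1 : ℕ) : ℝ) * ((s + (J - 1)).factorial : ℝ)) =
        y ^ (s + (J - 1)) / ((s + (J - 1)).factorial : ℝ) * (y / ((s + (J - 1) + 1 : ℕ) : ℝ)) := by
      rw [mul_comm (((s + (J - 1) + 1 : ℕ) : ℝ)), mul_div_mul_comm]
    rw [h3, pow_succ (25 / 48 : ℝ) s, ← mul_assoc]
    exact mul_le_mul ih h1 (by positivity) (by positivity)

theorem inner_le {xb w : ℝ} (hx : 0 ≤ xb) (hw : 0 ≤ w) {J t : ℕ} (ht : t ≤ 2) (hJ : 24 ≤ J)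
    (hwJ : xb + w ≤ J + 1)
    (h50 : ((xb + w) / 2) ^ (J - 1) / ((J - 1).factorial : ℝ) ≤ 2⁻¹ ^ 50) (l : ℕ) :
    ∑ i ∈ Finset.range (18 - t), w ^ i / (i.factorial : ℝ) * bb xb J (i + t) l ≤
      2⁻¹ ^ 50 * (25 / 48) ^ l := by
  set n := l + (J + 1 - t) with hn
  have h1 : ∀ i ∈ Finset.range (18 - t), w ^ i / (i.factorial : ℝ) * bb xb J (i + t) l =
      (1 / 2) ^ (n + t) / (n.factorial : ℝ) * (w ^ i * xb ^ (n - i) * (n.choose i : ℝ)) := by
    intro i hi
    rw [Finset.mem_range] at hi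
    have hin : i ≤ n := by omega
    unfold bb
    have e1 : l + (J + 1 - (i + t)) = n - i := by omega
    have e2 : l + (J + 1) = n + t := by omega
    rw [e1, e2]
    have h2 := Nat.choose_mul_factorial_mul_factorial hin
    have h3 : ((n.choose i : ℕ) : ℝ) * (i.factorial : ℝ) * ((n - i).factorial : ℝ) =
        (n.factorial : ℝ) := by exact_mod_cast h2
    have h4 : (i.factorial : ℝ) ≠ 0 := by positivity
    have h5 : ((n - i).factorial : ℝ) ≠ 0 := by positivity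
    have h6 : ((n.choose i : ℕ) : ℝ) ≠ 0 := by
      have := Nat.choose_pos hin
      positivity
    rw [← h3]
    field_simp
  rw [Finset.sum_congr rfl h1, ← Finset.mul_sum]
  have h2 : ∑ i ∈ Finset.range (18 - t), w ^ i * xb ^ (n - i) * (n.choose i : ℝ) ≤ (w + xb) ^ n := by
    rw [add_pow]
    refine Finset.sum_le_sum_of_subset_of_nonneg ?_ fun i _ _ => by positivity
    intro i hi
    rw [Finset.mem_range] at hi ⊢
    omega
  have h3 : (1 / 2 : ℝ) ^ (n + t) / (n.factorial : ℝ) *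
      ∑ i ∈ Finset.range (18 - t), w ^ i * xb ^ (n - i) * (n.choose i : ℝ) ≤
      (1 / 2 : ℝ) ^ n / (n.factorial : ℝ) * (w + xb) ^ n := by
    have h4 : (1 / 2 : ℝ) ^ (n + t) ≤ (1 / 2) ^ n :=
      pow_le_pow_of_le_one (by norm_num) (by norm_num) (Nat.le_add_right n t)
    have h5 : (1 / 2 : ℝ) ^ (n + t) / (n.factorial : ℝ) ≤ (1 / 2 : ℝ) ^ n / (n.factorial : ℝ) := by
      gcongr
    refine mul_le_mul h5 h2 (Finset.sum_nonneg fun i _ => by positivity) (by positivity)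
  refine h3.trans ?_
  have h6 : (1 / 2 : ℝ) ^ n / (n.factorial : ℝ) * (w + xb) ^ n =
      ((xb + w) / 2) ^ (l + (2 - t) + (J - 1)) / ((l + (2 - t) + (J - 1)).factorial : ℝ) := by
    have e : l + (2 - t) + (J - 1) = n := by omega
    rw [e, div_mul_eq_mul_div, ← mul_pow]
    congr 2
    ring
  rw [h6]
  refine (pow_fac (by positivity) hJ (by linarith) h50 _).trans ?_
  have : (25 / 48 : ℝ) ^ (l + (2 - t)) ≤ (25 / 48) ^ l :=
    pow_le_pow_of_le_one (by norm_num) (by norm_num) (Nat.le_add_right _ _)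
  gcongr

theorem trunc {θ : ℝ} {xb w : ℝ} (hx : 0 ≤ xb) (hw : 0 ≤ w)
    (hal : ∀ j, 0 < al θ j ∧ al θ j ≤ 1 / (2 ^ j * (j.factorial : ℝ)))
    (hD : ∀ m : ℕ, iteratedDeriv m (f0 θ) xb = ∑' j, tm θ xb m j) {J t : ℕ} (ht : t ≤ 2) (hJ : 24 ≤ J)
    (hwJ : xb + w ≤ J + 1)
    (h50 : ((xb + w) / 2) ^ (J - 1) / ((J - 1).factorial : ℝ) ≤ 2⁻¹ ^ 50) :
    |∑ i ∈ Finset.range (18 - t), iteratedDeriv (i + t) (f0 θ) xb / (i.factorial : ℝ) * w ^ i -
      ∑ i ∈ Finset.range (18 - t), ((i + t).factorial : ℝ) / (i.factorial : ℝ) * cT θ xb J (i + t) * w ^ i|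
      ≤ 2⁻¹ ^ 48 := by
  rw [← Finset.sum_sub_distrib]
  refine (Finset.abs_sum_le_sum_abs _ _).trans ?_
  have h1 : ∀ i ∈ Finset.range (18 - t),
      |iteratedDeriv (i + t) (f0 θ) xb / (i.factorial : ℝ) * w ^ i -
        ((i + t).factorial : ℝ) / (i.factorial : ℝ) * cT θ xb J (i + t) * w ^ i| ≤
      w ^ i / (i.factorial : ℝ) * ∑' l, bb xb J (i + t) l := by
    intro i hi
    rw [Finset.mem_range] at hi
    have e : iteratedDeriv (i + t) (f0 θ) xb / (i.factorial : ℝ) * w ^ i -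
        ((i + t).factorial : ℝ) / (i.factorial : ℝ) * cT θ xb J (i + t) * w ^ i =
        w ^ i / (i.factorial : ℝ) * (iteratedDeriv (i + t) (f0 θ) xb -
          ((i + t).factorial : ℝ) * cT θ xb J (i + t)) := by ring
    rw [e, abs_mul, abs_of_nonneg (by positivity)]
    exact mul_le_mul_of_nonneg_left (coef_err hx hal hD (by omega)) (by positivity)
  refine (Finset.sum_le_sum h1).trans ?_
  have h2 : HasSum (fun l => ∑ i ∈ Finset.range (18 - t), w ^ i / (i.factorial : ℝ) * bb xb J (i + t) l)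
      (∑ i ∈ Finset.range (18 - t), w ^ i / (i.factorial : ℝ) * ∑' l, bb xb J (i + t) l) :=
    hasSum_sum fun i _ => (bb_summable hx J (i + t)).hasSum.mul_left _
  have h3 : HasSum (fun l : ℕ => (2⁻¹ ^ 50 : ℝ) * (25 / 48) ^ l) (2⁻¹ ^ 50 * (1 - 25 / 48)⁻¹) :=
    (hasSum_geometric_of_lt_one (by norm_num) (by norm_num)).mul_left _
  refine (hasSum_le (fun l => inner_le hx hw ht hJ hwJ h50 l) h2 h3).trans ?_
  norm_num

theorem iter_iter (g : ℝ → ℝ) (a b : ℕ) : iteratedDeriv a (iteratedDeriv b g) = iteratedDeriv (a + b) g := by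
  rw [iteratedDeriv_eq_iterate, iteratedDeriv_eq_iterate, iteratedDeriv_eq_iterate,
    Function.iterate_add_apply]

theorem contDiff_iter {g : ℝ → ℝ} (hg : ∀ n : ℕ, ContDiff ℝ n g) (t n : ℕ) :
    ContDiff ℝ n (iteratedDeriv t g) := by
  rw [iteratedDeriv_eq_iterate]
  apply ContDiff.iterate_deriv' n t
  exact_mod_cast hg (n + t)

theorem key (hN : N10) {θ : ℝ} (h0 : 0 < θ) (h1 : θ < 1 / 2)
    (hal : ∀ j, 0 < al θ j ∧ al θ j ≤ 1 / (2 ^ j * (j.factorial : ℝ))) {xb w : ℝ} {J : ℕ}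
    (hx : 0 ≤ xb) (hw : 0 ≤ w) (hw2 : w ≤ 2) (hJ : 24 ≤ J) (hwJ : xb + w ≤ J + 1)
    (h50 : ((xb + w) / 2) ^ (J - 1) / ((J - 1).factorial : ℝ) ≤ 2⁻¹ ^ 50) {t : ℕ} (ht : t ≤ 2) :
    |iteratedDeriv t (f0 θ) (xb + w) -
      ∑ i ∈ Finset.range (18 - t), ((i + t).factorial : ℝ) / (i.factorial : ℝ) * cT θ xb J (i + t) * w ^ i|
      ≤ 2⁻¹ ^ 44 := by
  obtain ⟨hc, hD, hB⟩ := hN θ h0 h1
  have hn : 18 - t = (17 - t) + 1 := by omega
  have hT := taylor_bd (g := iteratedDeriv t (f0 θ)) (contDiff_iter hc t) (17 - t) (x0 := xb) (w := w)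
    (C := 1 / 2 ^ 18) hw (by
      intro x hxx
      rw [iter_iter, show 17 - t + 1 + t = 18 by omega]
      exact hB 18 x (hx.trans hxx))
  have hS := trunc (θ := θ) hx hw hal (fun m => hD m xb) ht hJ hwJ h50
  simp only [iter_iter] at hT
  rw [← hn] at hT
  have h3 : (1 / 2 ^ 18 : ℝ) * w ^ (18 - t) / ((18 - t).factorial : ℝ) ≤ 2⁻¹ ^ 46 := by
    have h4 : w ^ (18 - t) ≤ 2 ^ (18 - t) := pow_le_pow_left₀ hw hw2 _
    have h5 : (1 / 2 ^ 18 : ℝ) * w ^ (18 - t) / ((18 - t).factorial : ℝ) ≤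
        (1 / 2 ^ 18 : ℝ) * 2 ^ (18 - t) / ((18 - t).factorial : ℝ) := by gcongr
    refine h5.trans ?_
    interval_cases t <;> norm_num [Nat.factorial]
  have h6 := abs_sub_le (iteratedDeriv t (f0 θ) (xb + w))
    (∑ i ∈ Finset.range (18 - t), iteratedDeriv (i + t) (f0 θ) xb / (i.factorial : ℝ) * w ^ i)
    (∑ i ∈ Finset.range (18 - t), ((i + t).factorial : ℝ) / (i.factorial : ℝ) * cT θ xb J (i + t) * w ^ i)
  refine h6.trans ((add_le_add (hT.trans h3) hS).trans ?_)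
  norm_num

theorem n11 : Pool.Agent.Helper63.P705.N11 := by
  intro hN θ h0 h1 hal xb w J hx hw hw2 hJ hwJ h50
  have k0 := key hN h0 h1 hal hx hw hw2 hJ hwJ h50 (t := 0) (by norm_num)
  have k1 := key hN h0 h1 hal hx hw hw2 hJ hwJ h50 (t := 1) (by norm_num)
  have k2 := key hN h0 h1 hal hx hw hw2 hJ hwJ h50 (t := 2) (by norm_num)
  have d1 : ∀ x, iteratedDeriv 1 (f0 θ) x = -(f1 θ x) / 2 := by
    intro x
    rw [iteratedDeriv_one]
    exact (Pool.Agent.Helper53.PT.hasDerivAt_f0 h0 h1 x).deriv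
  have d2 : ∀ x, iteratedDeriv 2 (f0 θ) x = -(f2 θ x) / 2 := by
    intro x
    rw [iteratedDeriv_succ]
    have : iteratedDeriv 1 (f0 θ) = fun x => -(f1 θ x) / 2 := funext d1
    rw [this]
    exact ((Pool.Agent.Helper53.PT.hasDerivAt_f1 h0 h1 x).neg.div_const 2).deriv
  refine ⟨?_, ?_, ?_⟩
  · refine (le_of_eq ?_).trans (k0.trans (by norm_num))
    congr 1
    rw [iteratedDeriv_zero]
    congr 1
    refine Finset.sum_congr rfl fun i _ => ?_
    have : (i.factorial : ℝ) ≠ 0 := by positivity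
    rw [add_zero, div_self this, one_mul]
  · have e : f1 θ (xb + w) - (-2) * ∑ i ∈ Finset.range 17, ((i : ℝ) + 1) * cT θ xb J (i + 1) * w ^ i =
        (-2) * (iteratedDeriv 1 (f0 θ) (xb + w) -
          ∑ i ∈ Finset.range (18 - 1), ((i + 1).factorial : ℝ) / (i.factorial : ℝ) *
            cT θ xb J (i + 1) * w ^ i) := by
      rw [d1]
      have : ∑ i ∈ Finset.range (18 - 1), ((i + 1).factorial : ℝ) / (i.factorial : ℝ) *
            cT θ xb J (i + 1) * w ^ i =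
          ∑ i ∈ Finset.range 17, ((i : ℝ) + 1) * cT θ xb J (i + 1) * w ^ i := by
        refine Finset.sum_congr rfl fun i _ => ?_
        have : (i.factorial : ℝ) ≠ 0 := by positivity
        rw [Nat.factorial_succ]
        push_cast
        field_simp
      rw [this]
      ring
    rw [e, abs_mul]
    have : |(-2 : ℝ)| = 2 := by norm_num
    rw [this]
    refine (mul_le_mul_of_nonneg_left k1 (by norm_num)).trans ?_
    norm_num
  · have e : f2 θ (xb + w) - (-2) * ∑ i ∈ Finset.range 16,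
          ((i : ℝ) + 2) * (i + 1) * cT θ xb J (i + 2) * w ^ i =
        (-2) * (iteratedDeriv 2 (f0 θ) (xb + w) -
          ∑ i ∈ Finset.range (18 - 2), ((i + 2).factorial : ℝ) / (i.factorial : ℝ) *
            cT θ xb J (i + 2) * w ^ i) := by
      rw [d2]
      have : ∑ i ∈ Finset.range (18 - 2), ((i + 2).factorial : ℝ) / (i.factorial : ℝ) *
            cT θ xb J (i + 2) * w ^ i =
          ∑ i ∈ Finset.range 16, ((i : ℝ) + 2) * (i + 1) * cT θ xb J (i + 2) * w ^ i := by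
        refine Finset.sum_congr rfl fun i _ => ?_
        have : (i.factorial : ℝ) ≠ 0 := by positivity
        rw [Nat.factorial_succ, Nat.factorial_succ]
        push_cast
        field_simp
        ring
      rw [this]
      ring
    rw [e, abs_mul]
    have : |(-2 : ℝ)| = 2 := by norm_num
    rw [this]
    refine (mul_le_mul_of_nonneg_left k2 (by norm_num)).trans ?_
    norm_num

end Pool.Agent.Helper49.P705
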